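import Pool.Agent.W455.EM.Stm

set_option autoImplicit false

namespace Pool.Agent.W140.EM.EXB2

open Finset Pool.Agent.W455.EM Pool.Agent.FracEM.PMT

/-- few `m`-subsets of `W` meet `U` -/
theorem cntD {α : Type} [DecidableEq α] (m : ℕ) (W U : Finset α) (N : ℕ)
    (hN : W.card ≤ N) :
    ((W.powersetCard m).filter (fun S => ¬ Disjoint S U)).card ≤ U.card * N ^ (m - 1) := by
  have hsub : (W.powersetCard m).filter (fun S => ¬ Disjoint S U) ⊆
      U.biUnion (fun u => ((W.erase u).powersetCard (m - 1)).image (insert u)) := by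
    intro S hS
    rw [mem_filter, mem_powersetCard] at hS
    obtain ⟨⟨hSW, hc⟩, hd⟩ := hS
    rw [not_disjoint_iff] at hd
    obtain ⟨u, huS, huU⟩ := hd
    rw [mem_biUnion]
    refine ⟨u, huU, ?_⟩
    rw [mem_image]
    refine ⟨S.erase u, ?_, insert_erase huS⟩
    rw [mem_powersetCard]
    refine ⟨erase_subset_erase u hSW, ?_⟩
    rw [card_erase_of_mem huS, hc]
  calc _ ≤ _ := card_le_card hsub
    _ ≤ ∑ u ∈ U, (((W.erase u).powersetCard (m - 1)).image (insert u)).card := card_biUnion_le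
    _ ≤ ∑ u ∈ U, N ^ (m - 1) := by
        apply sum_le_sum
        intro u hu
        calc _ ≤ ((W.erase u).powersetCard (m - 1)).card := card_image_le
          _ = (W.erase u).card.choose (m - 1) := card_powersetCard _ _
          _ ≤ (W.erase u).card ^ (m - 1) := Nat.choose_le_pow _ _
          _ ≤ N ^ (m - 1) := Nat.pow_le_pow_left ((card_erase_le).trans hN) _
    _ = U.card * N ^ (m - 1) := by rw [sum_const, smul_eq_mul]

theorem count_low {n : ℕ} (m : ℕ) (A : Finset (Fin n)) (v : Fin n) (hv : v ∉ A) :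
    A.card.choose 2 * (n - A.card - 1).choose m ≤
      (((univ.erase v).powersetCard (m + 2)).filter (fun X => (X ∩ A).card = 2)).card := by
  classical
  have hc : ((univ \ A).erase v).card = n - A.card - 1 := by
    rw [card_erase_of_mem (by simp [hv]), card_sdiff_of_subset (subset_univ _), card_univ,
      Fintype.card_fin]
  have hinter : ∀ X1 X2 : Finset (Fin n), X1 ⊆ A → X2 ⊆ (univ \ A).erase v →
      (X1 ∪ X2) ∩ A = X1 ∧ (X1 ∪ X2) \ A = X2 := by
    intro X1 X2 h1 h3
    have h3' : ∀ x ∈ X2, x ∉ A := fun x hx => (mem_sdiff.1 (mem_of_mem_erase (h3 hx))).2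
    constructor
    · ext x
      rw [mem_inter, mem_union]
      constructor
      · rintro ⟨hx | hx, hxA⟩
        · exact hx
        · exact absurd hxA (h3' x hx)
      · intro hx
        exact ⟨Or.inl hx, h1 hx⟩
    · ext x
      rw [mem_sdiff, mem_union]
      constructor
      · rintro ⟨hx | hx, hxA⟩
        · exact absurd (h1 hx) hxA
        · exact hx
      · intro hx
        exact ⟨Or.inr hx, h3' x hx⟩
  rw [← card_powersetCard 2 A, ← hc, ← card_powersetCard m, ← card_product]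
  apply card_le_card_of_injOn (fun p => p.1 ∪ p.2)
  · rintro ⟨X1, X2⟩ hp
    rw [mem_coe, mem_product, mem_powersetCard, mem_powersetCard] at hp
    obtain ⟨⟨h1, h2⟩, h3, h4⟩ := hp
    have h5 := hinter X1 X2 h1 h3
    rw [mem_coe, mem_filter, mem_powersetCard]
    refine ⟨⟨?_, ?_⟩, ?_⟩
    · intro x hx
      rw [mem_erase]
      refine ⟨?_, mem_univ _⟩
      rcases mem_union.1 hx with hx | hx
      · rintro rfl
        exact hv (h1 hx)
      · exact ne_of_mem_erase (h3 hx)
    · have h6 : (((X1 ∪ X2) \ A)).card + ((X1 ∪ X2) ∩ A).card = (X1 ∪ X2).card :=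
        card_sdiff_add_card_inter _ _
      rw [h5.1, h5.2, h2, h4] at h6
      exact h6.symm
    · change ((X1 ∪ X2) ∩ A).card = 2
      rw [h5.1, h2]
  · rintro ⟨X1, X2⟩ hp ⟨Y1, Y2⟩ hp' heq
    rw [mem_coe, mem_product, mem_powersetCard, mem_powersetCard] at hp hp'
    have h5 := hinter X1 X2 hp.1.1 hp.2.1
    have h6 := hinter Y1 Y2 hp'.1.1 hp'.2.1
    have h7 : X1 ∪ X2 = Y1 ∪ Y2 := heq
    rw [h7] at h5
    rw [Prod.mk.injEq]
    exact ⟨h5.1.symm.trans h6.1, h5.2.symm.trans h6.2⟩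

theorem main (hgre : S_GRE) : S_EXB2 := by
  classical
  intro k hk
  obtain ⟨m, rfl⟩ : ∃ m, k = m + 3 := ⟨k - 3, by omega⟩
  -- the constant
  obtain ⟨c, hc⟩ : ∃ c : ℝ, c = 1 / (8 * ((m : ℝ) + 3) ^ 2) * ((1 / 4) ^ m / (m.factorial : ℝ)) :=
    ⟨_, rfl⟩
  have hfac : (0 : ℝ) < m.factorial := by exact_mod_cast m.factorial_pos
  have hc0 : 0 < c := by rw [hc]; positivity
  refine ⟨c / 4, by positivity, min (c / (4 * ((m : ℝ) + 4))) (1 / 12), by positivity,
    6 * (m + 3), ?_⟩
  intro n hn hkn H A α γ hα hα0 hγ hγ0 hstr hA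
  have hγ1 : γ ≤ c / (4 * ((m : ℝ) + 4)) := hγ0.trans (min_le_left _ _)
  have hγ2 : γ ≤ 1 / 12 := hγ0.trans (min_le_right _ _)
  have e1 : m + 3 - 1 = m + 2 := rfl
  have e2 : m + 3 - 2 = m + 1 := rfl
  obtain ⟨q, hq⟩ := hkn
  have hnk : n / (m + 3) = q := by rw [hq]; exact Nat.mul_div_cancel_left q (by omega)
  have hnr : (n : ℝ) = ((m : ℝ) + 3) * q := by rw [hq]; push_cast; ring
  have hn0 : 0 < n := by omega
  have hn0r : (0 : ℝ) < n := by exact_mod_cast hn0
  have hq6 : 6 ≤ q := by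
    by_contra hcon
    push Not at hcon
    have : (m + 3) * q ≤ (m + 3) * 5 := Nat.mul_le_mul_left _ (by omega)
    omega
  rw [hnk] at hA ⊢
  have hsize := hstr.size
  have hdiv : (n : ℝ) / ((m + 3 : ℕ) : ℝ) = q := by
    rw [hnr]; push_cast; field_simp
  rw [hdiv] at hsize
  have hAq : (A.card : ℝ) ≤ q + γ * n := by
    have := (abs_le.1 hsize).2
    linarith
  have hq3 : (q : ℝ) ≤ n / 3 := by
    rw [hnr]
    have : (0 : ℝ) ≤ m * q := by positivity
    linarith
  have hAn : (A.card : ℝ) ≤ 5 / 12 * n := by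
    have : γ * n ≤ 1 / 12 * n := by gcongr
    linarith
  -- the set S
  set s := A.card - q with hs
  have hsr : (s : ℝ) ≤ γ * n := by
    rw [hs, Nat.cast_sub hA]
    linarith
  have hcompl : (univ \ A).card = n - A.card := by
    rw [card_sdiff_of_subset (subset_univ _), card_univ, Fintype.card_fin]
  have hsle : s ≤ (univ \ A).card := by
    rw [hcompl]
    have h1 : (s : ℝ) + A.card ≤ n := by
      have : γ * n ≤ 1 / 12 * n := by gcongr
      linarith
    have h2 : s + A.card ≤ n := by exact_mod_cast h1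
    omega
  obtain ⟨S, hSA, hSc⟩ := exists_subset_card_eq hsle
  have hSnA : ∀ v ∈ S, v ∉ A := fun v hv => (mem_sdiff.1 (hSA hv)).2
  set X : Fin n → Finset (Finset (Fin n)) := fun v =>
    ((univ.erase v).powersetCard (m + 2)).filter
      (fun X => (X ∩ A).card = 2 ∧ Disjoint X S ∧ insert v X ∈ H) with hX
  have hXmem : ∀ v, ∀ T ∈ X v, (T ⊆ univ.erase v ∧ T.card = m + 2) ∧ (T ∩ A).card = 2 ∧
      Disjoint T S ∧ insert v T ∈ H := by
    intro v T hT
    rw [hX] at hT
    exact ⟨mem_powersetCard.1 (mem_filter.1 hT).1, (mem_filter.1 hT).2⟩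
  -- the lower bound
  have hlow : ∀ v ∈ S, (m + 3) * S.card * n ^ (m + 1) < (X v).card := by
    intro v hv
    have h1 := count_low m A v (hSnA v hv)
    have h2 : c * (n : ℝ) ^ (m + 2) ≤ ((A.card.choose 2 * (n - A.card - 1).choose m : ℕ) : ℝ) := by
      have a1 : (((A.card + 1 - 2 : ℕ) : ℝ) ^ 2) / (Nat.factorial 2 : ℝ) ≤ (A.card.choose 2 : ℝ) :=
        Nat.pow_le_choose 2 A.card
      have a2 : (((n - A.card - 1 + 1 - m : ℕ) : ℝ) ^ m) / (m.factorial : ℝ) ≤
          ((n - A.card - 1).choose m : ℝ) := Nat.pow_le_choose m (n - A.card - 1)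
      have b1 : (n : ℝ) / (2 * ((m : ℝ) + 3)) ≤ ((A.card + 1 - 2 : ℕ) : ℝ) := by
        have : q ≤ (A.card + 1 - 2) + 1 := by omega
        have h3 : (q : ℝ) ≤ ((A.card + 1 - 2 : ℕ) : ℝ) + 1 := by exact_mod_cast this
        have h4 : (6 : ℝ) ≤ q := by exact_mod_cast hq6
        have h5 : (n : ℝ) / (2 * ((m : ℝ) + 3)) = q / 2 := by
          rw [hnr]; field_simp
        rw [h5]
        linarith
      have b2 : (n : ℝ) / 4 ≤ ((n - A.card - 1 + 1 - m : ℕ) : ℝ) := by
        have : n ≤ (n - A.card - 1 + 1 - m) + A.card + m := by omega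
        have h3 : (n : ℝ) ≤ ((n - A.card - 1 + 1 - m : ℕ) : ℝ) + A.card + m := by
          exact_mod_cast this
        have h4 : 6 * ((m : ℝ) + 3) ≤ n := by exact_mod_cast hn
        linarith
      have a3 : (n : ℝ) ^ 2 / (8 * ((m : ℝ) + 3) ^ 2) ≤ (A.card.choose 2 : ℝ) := by
        refine le_trans ?_ a1
        have : ((n : ℝ) / (2 * ((m : ℝ) + 3))) ^ 2 ≤ ((A.card + 1 - 2 : ℕ) : ℝ) ^ 2 := by
          gcongr
        have h5 : (n : ℝ) ^ 2 / (8 * ((m : ℝ) + 3) ^ 2) =
            ((n : ℝ) / (2 * ((m : ℝ) + 3))) ^ 2 / (Nat.factorial 2 : ℝ) := by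
          rw [Nat.factorial_two]
          push_cast
          field_simp
          norm_num
        rw [h5]
        gcongr
      have a4 : (n : ℝ) ^ m * ((1 / 4) ^ m / (m.factorial : ℝ)) ≤
          ((n - A.card - 1).choose m : ℝ) := by
        refine le_trans ?_ a2
        have h5 : (n : ℝ) ^ m * ((1 / 4) ^ m / (m.factorial : ℝ)) =
            ((n : ℝ) / 4) ^ m / (m.factorial : ℝ) := by
          rw [div_eq_mul_one_div (n : ℝ) 4, mul_pow]; ring
        rw [h5]
        gcongr
      rw [hc, Nat.cast_mul]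
      calc _ = ((n : ℝ) ^ 2 / (8 * ((m : ℝ) + 3) ^ 2)) *
            ((n : ℝ) ^ m * ((1 / 4) ^ m / (m.factorial : ℝ))) := by ring
        _ ≤ _ := by gcongr
    have h3 : (((univ.erase v).powersetCard (m + 2)).filter (fun X => (X ∩ A).card = 2)) ⊆
        (X v ∪ ((univ.erase v).powersetCard (m + 2)).filter
          (fun X => ¬ Disjoint X A ∧ insert v X ∉ H)) ∪
        ((univ.erase v).powersetCard (m + 2)).filter (fun X => ¬ Disjoint X S) := by
      intro T hT
      rw [mem_filter] at hT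
      rw [mem_union, mem_union]
      by_cases hd : Disjoint T S
      · left
        by_cases hH : insert v T ∈ H
        · left
          rw [hX]
          exact mem_filter.2 ⟨hT.1, hT.2, hd, hH⟩
        · right
          refine mem_filter.2 ⟨hT.1, ?_, hH⟩
          intro hdA
          have := hT.2
          rw [disjoint_iff_inter_eq_empty.1 hdA, card_empty] at this
          omega
      · right
        exact mem_filter.2 ⟨hT.1, hd⟩
    have h4 := (card_le_card h3).trans ((card_union_le _ _).trans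
      (Nat.add_le_add_right (card_union_le _ _) _))
    have h5 := hstr.mis v (hSnA v hv)
    rw [e1] at h5
    have h6 := cntD (m + 2) (univ.erase v) S n (by
      calc (univ.erase v).card ≤ (univ : Finset (Fin n)).card := card_erase_le
        _ = n := by rw [card_univ, Fintype.card_fin])
    have e3 : m + 2 - 1 = m + 1 := rfl
    rw [e3] at h6
    have h7 : ((A.card.choose 2 * (n - A.card - 1).choose m : ℕ) : ℝ) ≤
        ((X v).card : ℝ) + α * (n : ℝ) ^ (m + 2) + (S.card : ℝ) * (n : ℝ) ^ (m + 1) := by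
      have h8 : ((A.card.choose 2 * (n - A.card - 1).choose m : ℕ) : ℝ) ≤ ((X v).card : ℝ) +
          ((((univ.erase v).powersetCard (m + 2)).filter
            (fun X => ¬ Disjoint X A ∧ insert v X ∉ H)).card : ℝ) +
          ((((univ.erase v).powersetCard (m + 2)).filter
            (fun X => ¬ Disjoint X S)).card : ℝ) := by exact_mod_cast h1.trans h4
      have h9 : ((((univ.erase v).powersetCard (m + 2)).filter
            (fun X => ¬ Disjoint X S)).card : ℝ) ≤ (S.card : ℝ) * (n : ℝ) ^ (m + 1) := by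
        exact_mod_cast h6
      linarith
    have h10 : (S.card : ℝ) * (n : ℝ) ^ (m + 1) ≤ γ * (n : ℝ) ^ (m + 2) := by
      rw [hSc]
      calc (s : ℝ) * (n : ℝ) ^ (m + 1) ≤ (γ * n) * (n : ℝ) ^ (m + 1) := by gcongr
        _ = γ * (n : ℝ) ^ (m + 2) := by ring
    have hnp : (0 : ℝ) < (n : ℝ) ^ (m + 2) := by positivity
    have h11 : ((m : ℝ) + 4) * γ ≤ c / 4 := by
      calc ((m : ℝ) + 4) * γ ≤ ((m : ℝ) + 4) * (c / (4 * ((m : ℝ) + 4))) := by gcongr
        _ = c / 4 := by field_simp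
    have h12 : (((m + 3) * S.card * n ^ (m + 1) : ℕ) : ℝ) < ((X v).card : ℝ) := by
      push_cast
      have h13 : ((m : ℝ) + 3) * (S.card : ℝ) * (n : ℝ) ^ (m + 1) ≤
          ((m : ℝ) + 3) * (γ * (n : ℝ) ^ (m + 2)) := by
        rw [mul_assoc]
        gcongr
      have h14 : α * (n : ℝ) ^ (m + 2) ≤ c / 4 * (n : ℝ) ^ (m + 2) := by gcongr
      have h15 : (((m : ℝ) + 4) * γ) * (n : ℝ) ^ (m + 2) ≤ c / 4 * (n : ℝ) ^ (m + 2) := by
        gcongr
      have h16 : 0 < c * (n : ℝ) ^ (m + 2) := by positivity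
      nlinarith
    exact_mod_cast h12
  obtain ⟨f, hf1, hf2⟩ := hgre n (m + 3) (by omega) S X
    (fun v _ T hT => (hXmem v T hT).1.2) (fun v hv => hlow v hv)
  have hfS : ∀ v ∈ S, Disjoint (f v) S := fun v hv => (hXmem v _ (hf1 v hv)).2.2.1
  have hfd : ∀ u ∈ S, ∀ v ∈ S, u ≠ v → Disjoint (insert u (f u)) (insert v (f v)) := by
    intro u hu v hv huv
    rw [disjoint_left]
    intro x hx hx'
    rcases mem_insert.1 hx with hx1 | hx1
    · rcases mem_insert.1 hx' with hx2 | hx2
      · exact huv (hx1.symm.trans hx2)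
      · exact disjoint_left.1 (hfS v hv) hx2 (hx1 ▸ hu)
    · rcases mem_insert.1 hx' with hx2 | hx2
      · exact disjoint_left.1 (hfS u hu) hx1 (hx2 ▸ hv)
      · exact disjoint_left.1 (hf2 u hu v hv huv) hx1 hx2
  have hinj : Set.InjOn (fun v => insert v (f v)) (S : Set (Fin n)) := by
    intro u hu v hv huv
    by_contra hne
    have h1 := hfd u hu v hv hne
    have h2 : insert u (f u) = insert v (f v) := huv
    rw [← h2, disjoint_self_iff_empty] at h1
    exact (insert_ne_empty _ _) h1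
  refine ⟨S.image (fun v => insert v (f v)), ?_, ?_, ?_, ?_⟩
  · intro e he
    obtain ⟨v, hv, rfl⟩ := mem_image.1 he
    exact (hXmem v _ (hf1 v hv)).2.2.2
  · intro e he e' he' hee
    obtain ⟨v, hv, rfl⟩ := mem_image.1 he
    obtain ⟨u, hu, rfl⟩ := mem_image.1 he'
    exact hfd v hv u hu (fun h => hee (by rw [h]))
  · rw [card_image_of_injOn hinj, hSc]
  · intro e he
    obtain ⟨v, hv, rfl⟩ := mem_image.1 he
    rw [insert_inter_of_notMem (hSnA v hv)]
    exact (hXmem v _ (hf1 v hv)).2.1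

end Pool.Agent.W140.EM.EXB2
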